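import Mathlib

set_option autoImplicit false

namespace Pool.Agent.Results.MP_21cc58_al.Neg

def Adj (G : Type) [Group G] (p q : ℕ) : Prop :=
  p.Prime ∧ q.Prime ∧ p ≠ q ∧ ∃ g : G, orderOf g = p * q

noncomputable def deg (G : Type) [Group G] (p : ℕ) : ℕ := {q | Adj G p q}.ncard

@[ext] structure T (b : Bool) where
  x : ZMod 7
  y : ZMod 13
  k : ZMod 6
deriving DecidableEq, Fintype

def u (b : Bool) (k : ZMod 6) : ZMod 7 := (if b then 6 else 2) ^ k.val
def v (b : Bool) (k : ZMod 6) : ZMod 13 := (if b then 3 else 12) ^ k.val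

lemma uv : ∀ b k l, u b (k + l) = u b k * u b l ∧ v b (k + l) = v b k * v b l := by decide +kernel

instance (b : Bool) : Mul (T b) :=
  ⟨fun s t => ⟨s.x + u b s.k * t.x, s.y + v b s.k * t.y, s.k + t.k⟩⟩
instance (b : Bool) : One (T b) := ⟨⟨0, 0, 0⟩⟩
instance (b : Bool) : Inv (T b) := ⟨fun s => ⟨-(u b (-s.k) * s.x), -(v b (-s.k) * s.y), -s.k⟩⟩

lemma mul_d {b : Bool} (s t : T b) :
    s * t = ⟨s.x + u b s.k * t.x, s.y + v b s.k * t.y, s.k + t.k⟩ := rfl

instance (b : Bool) : Group (T b) := Group.ofLeftAxioms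
  (fun _ _ _ => by ext <;> simp only [mul_d, uv] <;> ring)
  (by revert b; decide +kernel) (by revert b; decide +kernel)

def E (b : Bool) : Finset (ℕ × ℕ) :=
  if b then {(2, 3), (3, 2), (2, 13), (13, 2), (3, 7), (7, 3), (7, 13), (13, 7)}
  else {(2, 3), (3, 2), (2, 7), (7, 2), (3, 13), (13, 3), (7, 13), (13, 7)}

lemma card (b : Bool) : Nat.card (T b) = 546 := by
  rw [Nat.card_eq_fintype_card]; revert b; decide +kernel

lemma pr {p : ℕ} (hp : p.Prime) (h : p ∣ 546) : p ∈ ({2, 3, 7, 13} : Finset ℕ) := by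
  have : p ∈ Nat.primeFactors 546 := Nat.mem_primeFactors.2 ⟨hp, h, by decide⟩
  rwa [show Nat.primeFactors 546 = {2, 3, 7, 13} by simp [Nat.primeFactors]] at this

lemma adj (b : Bool) (p q : ℕ) : Adj (T b) p q ↔ (p, q) ∈ E b := by
  constructor
  · rintro ⟨hp, hq, h, g, hg⟩
    have h1 := orderOf_dvd_natCard g
    rw [hg, card] at h1
    have key : ∀ b, ∀ p ∈ ({2, 3, 7, 13} : Finset ℕ), ∀ q ∈ ({2, 3, 7, 13} : Finset ℕ), p ≠ q →
        (p, q) ∉ E b → ∀ g : T b, g ^ (p * q) = 1 → g ^ p = 1 ∨ g ^ q = 1 := by decide +kernel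
    by_contra hc
    rcases key b p (pr hp (dvd_of_mul_right_dvd h1)) q (pr hq (dvd_of_mul_left_dvd h1)) h hc g
      (hg ▸ pow_orderOf_eq_one g) with h2 | h2
    · have := Nat.le_of_dvd hp.pos (hg ▸ orderOf_dvd_of_pow_eq_one h2)
      nlinarith [hp.two_le, hq.two_le]
    · have := Nat.le_of_dvd hq.pos (hg ▸ orderOf_dvd_of_pow_eq_one h2)
      nlinarith [hp.two_le, hq.two_le]
  · intro h
    have key : ∀ b, ∀ r ∈ E b, r.1.Prime ∧ r.2.Prime ∧ r.1 ≠ r.2 ∧
        ∃ g : T b, g ^ (r.1 * r.2) = 1 ∧ g ^ r.1 ≠ 1 ∧ g ^ r.2 ≠ 1 := by decide +kernel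
    obtain ⟨hp, hq, h1, g, h2, h3, h4⟩ := key b _ h
    refine ⟨hp, hq, h1, g, orderOf_eq_of_pow_and_pow_div_prime (Nat.mul_pos hp.pos hq.pos) h2
      fun r hr h5 => ?_⟩
    rcases (Nat.Prime.dvd_mul hr).1 h5 with h6 | h6
    · rw [(Nat.prime_dvd_prime_iff_eq hr hp).1 h6, Nat.mul_div_cancel_left _ hp.pos]; exact h4
    · rw [(Nat.prime_dvd_prime_iff_eq hr hq).1 h6, Nat.mul_div_cancel _ hq.pos]; exact h3

theorem result : ∃ (G M : Type) (_ : Group G) (_ : Group M) (_ : Finite G) (_ : Finite M),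
    Nat.card G = Nat.card M ∧ (∀ p, p.Prime → p ∣ Nat.card G → deg G p = deg M p) ∧
    ∃ p q, Adj G p q ∧ ¬ Adj M p q := by
  refine ⟨T true, T false, inferInstance, inferInstance, inferInstance, inferInstance,
    by rw [card, card], fun p hp h => ?_, 3, 7, (adj _ _ _).2 (by decide),
    fun h => absurd ((adj _ _ _).1 h) (by decide)⟩
  have e : ∀ b, deg (T b) p = (((E b).filter (·.1 = p)).image Prod.snd).card := fun b => by
    rw [deg, ← Set.ncard_coe_finset]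
    congr 1
    ext q
    simp [adj]
  rw [e, e]
  have key : ∀ p ∈ ({2, 3, 7, 13} : Finset ℕ), (((E true).filter (·.1 = p)).image Prod.snd).card =
    (((E false).filter (·.1 = p)).image Prod.snd).card := by decide +kernel
  exact key p (pr hp (card true ▸ h))

end Pool.Agent.Results.MP_21cc58_al.Neg
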